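import Pool.Agent.H262R3.Lk.SWQ
import Pool.Agent.H442R2.EHI.PntErr
import Pool.Agent.H304R2.EC.RS

/-!
# Sums `∑ Λ(n) θ(n) n^(-iα) / n`
-/

open Complex Filter Topology Finset

set_option maxHeartbeats 4000000

namespace Pool.Agent.T2H25.ZR

open Pool.Agent.H262R3.Lk.SWQ (inv_log_diff psiC psiC_bound)
open Pool.Agent.H304R2.EC (npr npr_nonneg npr_summable)

/-- `n^(-iα)`, one for `n = 0` -/
noncomputable def ni (α : ℝ) (n : ℕ) : ℂ := cexp (((-(α * Real.log n) : ℝ) : ℂ) * I)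

lemma ni_norm (α : ℝ) (n : ℕ) : ‖ni α n‖ = 1 := by
  unfold ni
  exact norm_exp_ofReal_mul_I _

lemma exp_I_sub (x : ℝ) : ‖cexp ((x : ℂ) * I) - 1 - (x : ℂ) * I‖ ≤ x ^ 2 := by
  by_cases h : |x| ≤ 1
  · have h1 : ‖((x : ℂ) * I)‖ ≤ 1 := by
      rw [norm_mul, Complex.norm_I, mul_one, Complex.norm_real]
      exact h
    have h2 := Complex.norm_exp_sub_one_sub_id_le h1
    rw [norm_mul, Complex.norm_I, mul_one, Complex.norm_real, Real.norm_eq_abs, sq_abs] at h2
    exact h2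
  · push Not at h
    have h1 : ‖cexp ((x : ℂ) * I)‖ = 1 := norm_exp_ofReal_mul_I _
    -- use the bound by `|x| + 2 ≤ 3 |x|` is not enough; use the derivative bound
    have h2 : ‖cexp ((x : ℂ) * I) - 1‖ ≤ |x| := by
      have := Real.norm_exp_I_mul_ofReal_sub_one_le (x := x)
      rw [mul_comm] at this
      simpa [Real.norm_eq_abs] using this
    have h3 : ‖((x : ℂ) * I)‖ = |x| := by
      rw [norm_mul, Complex.norm_I, mul_one, Complex.norm_real, Real.norm_eq_abs]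
    by_cases h4 : 2 ≤ |x|
    · calc _ ≤ ‖cexp ((x : ℂ) * I) - 1‖ + ‖((x : ℂ) * I)‖ := norm_sub_le _ _
        _ ≤ |x| + |x| := by rw [h3]; exact add_le_add h2 le_rfl
        _ ≤ x ^ 2 := by
          rw [← sq_abs x]
          nlinarith
    · push Not at h4
      -- half angle
      have e : cexp ((x : ℂ) * I) - 1 - (x : ℂ) * I =
          (cexp (((x / 2 : ℝ) : ℂ) * I) - 1) ^ 2 +
            2 * (cexp (((x / 2 : ℝ) : ℂ) * I) - 1 - ((x / 2 : ℝ) : ℂ) * I) := by
        have e1 : cexp ((x : ℂ) * I) = cexp (((x / 2 : ℝ) : ℂ) * I) ^ 2 := by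
          rw [← Complex.exp_nat_mul]
          congr 1
          push_cast
          ring
        rw [e1]
        push_cast
        ring
      have h5 : ‖((((x / 2 : ℝ) : ℂ)) * I)‖ ≤ 1 := by
        rw [norm_mul, Complex.norm_I, mul_one, Complex.norm_real, Real.norm_eq_abs, abs_div,
          abs_of_pos (by norm_num : (0 : ℝ) < 2)]
        linarith
      have h6 := Complex.norm_exp_sub_one_sub_id_le h5
      have h7 : ‖cexp (((x / 2 : ℝ) : ℂ) * I) - 1‖ ≤ |x / 2| := by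
        have := Real.norm_exp_I_mul_ofReal_sub_one_le (x := x / 2)
        rw [mul_comm, Real.norm_eq_abs] at this
        exact this
      rw [norm_mul, Complex.norm_I, mul_one, Complex.norm_real, Real.norm_eq_abs, sq_abs] at h6
      rw [e]
      calc _ ≤ ‖(cexp (((x / 2 : ℝ) : ℂ) * I) - 1) ^ 2‖ +
            ‖2 * (cexp (((x / 2 : ℝ) : ℂ) * I) - 1 - ((x / 2 : ℝ) : ℂ) * I)‖ := norm_add_le _ _
        _ ≤ |x / 2| ^ 2 + 2 * (x / 2) ^ 2 := by
          rw [norm_pow, norm_mul]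
          refine add_le_add (pow_le_pow_left₀ (norm_nonneg _) h7 2) ?_
          have : ‖(2 : ℂ)‖ = 2 := by norm_num
          rw [this]
          linarith
        _ ≤ x ^ 2 := by
          rw [sq_abs]
          nlinarith

/-- the increments of `n^(-iα)` -/
lemma ni_step (α : ℝ) (n : ℕ) (hn : 1 ≤ n) :
    ‖ni α (n + 1) - ni α n + (α : ℂ) * I * ni α n / n‖ ≤ (α ^ 2 + |α|) / (n : ℝ) ^ 2 := by
  have hn0 : (0 : ℝ) < n := by exact_mod_cast hn
  set u : ℝ := Real.log ((n + 1 : ℕ) : ℝ) - Real.log n with hu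
  have hu1 : u = Real.log (1 + 1 / n) := by
    rw [hu, ← Real.log_div (by positivity) (by positivity)]
    congr 1
    push_cast
    field_simp
  have hu0 : 0 ≤ u := by
    rw [hu1]
    apply Real.log_nonneg
    have : 0 ≤ 1 / (n : ℝ) := by positivity
    linarith
  have hu2 : u ≤ 1 / n := by
    rw [hu1]
    have := Real.log_le_sub_one_of_pos (show 0 < 1 + 1 / (n : ℝ) by positivity)
    linarith
  have hu3 : 1 / (n : ℝ) - u ≤ 1 / (n : ℝ) ^ 2 := by
    have h1 := Real.one_sub_inv_le_log_of_pos (show 0 < 1 + 1 / (n : ℝ) by positivity)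
    rw [← hu1] at h1
    have h2 : 1 / (n : ℝ) - (1 - (1 + 1 / (n : ℝ))⁻¹) ≤ 1 / (n : ℝ) ^ 2 := by
      have h3 : 1 / (n : ℝ) - (1 - (1 + 1 / (n : ℝ))⁻¹) = 1 / (n * (n + 1)) := by
        field_simp
        ring
      rw [h3]
      apply one_div_le_one_div_of_le (by positivity)
      nlinarith
    linarith
  have e1 : ni α (n + 1) = ni α n * cexp (((-(α * u) : ℝ) : ℂ) * I) := by
    unfold ni
    rw [← Complex.exp_add]
    congr 1
    rw [hu]
    push_cast
    ring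
  have e2 : ni α (n + 1) - ni α n + (α : ℂ) * I * ni α n / n =
      ni α n * ((cexp (((-(α * u) : ℝ) : ℂ) * I) - 1 - ((-(α * u) : ℝ) : ℂ) * I) +
        ((α * (1 / n - u) : ℝ) : ℂ) * I) := by
    rw [e1]
    push_cast
    ring
  rw [e2, norm_mul, ni_norm, one_mul]
  have h1 := exp_I_sub (-(α * u))
  have h2 : ‖((α * (1 / n - u) : ℝ) : ℂ) * I‖ ≤ |α| / (n : ℝ) ^ 2 := by
    rw [norm_mul, Complex.norm_I, mul_one, Complex.norm_real, Real.norm_eq_abs, abs_mul,
      abs_of_nonneg (by linarith : 0 ≤ 1 / (n : ℝ) - u)]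
    calc |α| * (1 / n - u) ≤ |α| * (1 / (n : ℝ) ^ 2) := mul_le_mul_of_nonneg_left hu3 (abs_nonneg _)
      _ = _ := by ring
  have h3 : (-(α * u)) ^ 2 ≤ α ^ 2 / (n : ℝ) ^ 2 := by
    have h4 : u ^ 2 ≤ (1 / (n : ℝ)) ^ 2 := pow_le_pow_left₀ hu0 hu2 2
    calc (-(α * u)) ^ 2 = α ^ 2 * u ^ 2 := by ring
      _ ≤ α ^ 2 * (1 / (n : ℝ)) ^ 2 := mul_le_mul_of_nonneg_left h4 (by positivity)
      _ = _ := by ring
  calc _ ≤ (-(α * u)) ^ 2 + |α| / (n : ℝ) ^ 2 := (norm_add_le _ _).trans (add_le_add h1 h2)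
    _ ≤ α ^ 2 / (n : ℝ) ^ 2 + |α| / (n : ℝ) ^ 2 := by linarith
    _ = _ := by ring

/-- the sum of the inverse squares -/
noncomputable def S2 : ℝ := ∑' n : ℕ, 1 / (n : ℝ) ^ 2

lemma S2_nonneg : 0 ≤ S2 := tsum_nonneg fun n => by positivity

lemma sum_inv_sq (s : Finset ℕ) : ∑ n ∈ s, 1 / (n : ℝ) ^ 2 ≤ S2 := by
  have hsum : Summable (fun n : ℕ => 1 / (n : ℝ) ^ 2) :=
    Real.summable_one_div_nat_pow.mpr (by norm_num)
  exact hsum.sum_le_tsum _ (fun n _ => by positivity)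

/-- `∑ n^(-1-iα)` is bounded for `α ≠ 0` -/
theorem sum_ni (α : ℝ) (hα : α ≠ 0) : ∃ C : ℝ, 0 ≤ C ∧ ∀ N : ℕ,
    ‖∑ n ∈ Icc 1 N, ni α n / n‖ ≤ C := by
  have hS := S2_nonneg
  refine ⟨(2 + (α ^ 2 + |α|) * S2) / |α|, by positivity, fun N => ?_⟩
  have h1 : ∑ n ∈ Icc 1 N, (ni α (n + 1) - ni α n) = ni α (N + 1) - ni α 1 := by
    induction N with
    | zero => simp
    | succ N ih =>
      rw [Finset.sum_Icc_succ_top (by omega), ih]
      ring
  have h2 : (α : ℂ) * I * ∑ n ∈ Icc 1 N, ni α n / n =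
      ∑ n ∈ Icc 1 N, (ni α (n + 1) - ni α n + (α : ℂ) * I * ni α n / n) -
        (ni α (N + 1) - ni α 1) := by
    rw [← h1, ← Finset.sum_sub_distrib, Finset.mul_sum]
    refine Finset.sum_congr rfl fun n _ => ?_
    ring
  have h3 : ‖(α : ℂ) * I * ∑ n ∈ Icc 1 N, ni α n / n‖ ≤ 2 + (α ^ 2 + |α|) * S2 := by
    rw [h2]
    have h4 : ‖∑ n ∈ Icc 1 N, (ni α (n + 1) - ni α n + (α : ℂ) * I * ni α n / n)‖ ≤
        (α ^ 2 + |α|) * S2 := by
      refine (norm_sum_le _ _).trans ?_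
      calc ∑ n ∈ Icc 1 N, ‖ni α (n + 1) - ni α n + (α : ℂ) * I * ni α n / n‖ ≤
            ∑ n ∈ Icc 1 N, (α ^ 2 + |α|) * (1 / (n : ℝ) ^ 2) := by
            refine Finset.sum_le_sum fun n hn => ?_
            refine (ni_step α n (Finset.mem_Icc.1 hn).1).trans (le_of_eq ?_)
            ring
        _ = (α ^ 2 + |α|) * ∑ n ∈ Icc 1 N, 1 / (n : ℝ) ^ 2 := by rw [Finset.mul_sum]
        _ ≤ _ := mul_le_mul_of_nonneg_left (sum_inv_sq _) (by positivity)
    have h5 : ‖ni α (N + 1) - ni α 1‖ ≤ 2 := by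
      refine (norm_sub_le _ _).trans ?_
      rw [ni_norm, ni_norm]
      norm_num
    calc _ ≤ (α ^ 2 + |α|) * S2 + 2 := (norm_sub_le _ _).trans (add_le_add h4 h5)
      _ = _ := by ring
  rw [norm_mul, norm_mul, Complex.norm_I, mul_one, Complex.norm_real, Real.norm_eq_abs] at h3
  rw [le_div_iff₀ (abs_pos.2 hα)]
  linarith

lemma fdiff (α : ℝ) (n : ℕ) (hn : 1 ≤ n) :
    ‖ni α n / n - ni α (n + 1) / ((n + 1 : ℕ) : ℂ)‖ ≤ (1 + 2 * |α| + α ^ 2) / (n : ℝ) ^ 2 := by
  have hn0 : (0 : ℝ) < n := by exact_mod_cast hn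
  have hn1 : (1 : ℝ) ≤ n := by exact_mod_cast hn
  have hnc : (n : ℂ) ≠ 0 := by exact_mod_cast hn0.ne'
  have hnc' : ((n + 1 : ℕ) : ℂ) ≠ 0 := by exact_mod_cast (show (n + 1 : ℕ) ≠ 0 by omega)
  have e : ni α n / n - ni α (n + 1) / ((n + 1 : ℕ) : ℂ) =
      ni α n * (1 / (n : ℂ) - 1 / ((n + 1 : ℕ) : ℂ)) - (ni α (n + 1) - ni α n + (α : ℂ) * I * ni α n / n) /
        ((n + 1 : ℕ) : ℂ) + (α : ℂ) * I * ni α n / n / ((n + 1 : ℕ) : ℂ) := by
    field_simp
    ring
  have h1 : ‖ni α n * (1 / (n : ℂ) - 1 / ((n + 1 : ℕ) : ℂ))‖ ≤ 1 / (n : ℝ) ^ 2 := by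
    rw [norm_mul, ni_norm, one_mul]
    have e1 : (1 / (n : ℂ) - 1 / ((n + 1 : ℕ) : ℂ)) = ((1 / ((n : ℝ) * (n + 1)) : ℝ) : ℂ) := by
      push_cast at hnc' ⊢
      field_simp
      ring
    rw [e1, Complex.norm_real, Real.norm_of_nonneg (by positivity)]
    apply one_div_le_one_div_of_le (by positivity)
    nlinarith
  have hnn : ‖((n + 1 : ℕ) : ℂ)‖ = (n : ℝ) + 1 := by
    rw [Complex.norm_natCast]
    push_cast
    ring
  have h2 : ‖(ni α (n + 1) - ni α n + (α : ℂ) * I * ni α n / n) / ((n + 1 : ℕ) : ℂ)‖ ≤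
      (α ^ 2 + |α|) / (n : ℝ) ^ 2 := by
    rw [norm_div, hnn]
    refine (div_le_self (norm_nonneg _) (by linarith)).trans (ni_step α n hn)
  have h3 : ‖(α : ℂ) * I * ni α n / n / ((n + 1 : ℕ) : ℂ)‖ ≤ |α| / (n : ℝ) ^ 2 := by
    rw [norm_div, norm_div, norm_mul, norm_mul, Complex.norm_I, ni_norm, hnn, Complex.norm_real,
      Real.norm_eq_abs, mul_one, mul_one, Complex.norm_natCast, div_div]
    apply div_le_div_of_nonneg_left (abs_nonneg _) (by positivity)
    nlinarith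
  rw [e]
  calc _ ≤ 1 / (n : ℝ) ^ 2 + (α ^ 2 + |α|) / (n : ℝ) ^ 2 + |α| / (n : ℝ) ^ 2 :=
        (norm_add_le _ _).trans (add_le_add ((norm_sub_le _ _).trans (add_le_add h1 h2)) h3)
    _ = _ := by ring

lemma abelC (a f : ℕ → ℂ) (N : ℕ) (hN : 1 ≤ N) :
    ∑ n ∈ Icc 1 N, a n * f n = (∑ k ∈ Icc 1 N, a k) * f N +
      ∑ n ∈ Ico 1 N, (∑ k ∈ Icc 1 n, a k) * (f n - f (n + 1)) := by
  induction N, hN using Nat.le_induction with
  | base => simp
  | succ N hN ih =>
    rw [Finset.sum_Icc_succ_top (by omega), ih, Finset.sum_Ico_succ_top hN,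
      Finset.sum_Icc_succ_top (by omega : 1 ≤ N + 1)]
    ring

/-- Abel summation: a sequence whose partial sums are `O(n / log² n)` -/
theorem abel_bound (α : ℝ) (b : ℕ → ℂ) (C : ℝ) (n0 : ℕ)
    (hb : ∀ n : ℕ, n0 ≤ n → ‖∑ k ∈ Icc 1 n, b k‖ ≤ C * n / (Real.log n) ^ 2) :
    ∃ C' : ℝ, 0 ≤ C' ∧ ∀ N : ℕ, ‖∑ n ∈ Icc 1 N, b n * (ni α n / n)‖ ≤ C' := by
  set z : ℕ := max n0 4 with hz
  have hz4 : 4 ≤ z := le_max_right _ _
  have hC0 : 0 ≤ C := by
    have h1 := hb z (le_max_left _ _)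
    have h2 : (1 : ℝ) < z := by exact_mod_cast (by omega : 1 < z)
    have h3 : 0 < Real.log z := Real.log_pos h2
    by_contra h
    push Not at h
    have : C * z / (Real.log z) ^ 2 < 0 := div_neg_of_neg_of_pos (by nlinarith) (by positivity)
    linarith [norm_nonneg (∑ k ∈ Icc 1 z, b k)]
  set B : ℕ → ℝ := fun n => ‖∑ k ∈ Icc 1 n, b k‖ with hB
  set D : ℝ := ∑ n ∈ Finset.range (z + 1), B n with hD
  have hD0 : 0 ≤ D := Finset.sum_nonneg fun n _ => norm_nonneg _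
  have hBD : ∀ n, n ≤ z → B n ≤ D := fun n hn =>
    Finset.single_le_sum (f := B) (fun n _ => norm_nonneg _) (Finset.mem_range.2 (by omega))
  set K : ℝ := 1 + 2 * |α| + α ^ 2 with hK
  have hK0 : 0 ≤ K := by positivity
  -- the end term
  have hend : ∀ n : ℕ, 1 ≤ n → B n / n ≤ D + C := by
    intro n hn
    have hn0 : (0 : ℝ) < n := by exact_mod_cast hn
    have hn1 : (1 : ℝ) ≤ n := by exact_mod_cast hn
    rcases le_or_gt n z with h | h
    · calc B n / n ≤ B n := div_le_self (norm_nonneg _) hn1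
        _ ≤ D + C := by linarith [hBD n h]
    · have h1 := hb n ((le_max_left _ _).trans h.le)
      have hl : 1 ≤ Real.log n := by
        rw [Real.le_log_iff_exp_le hn0]
        have h2 : (4 : ℝ) ≤ n := by exact_mod_cast (by omega : 4 ≤ n)
        have := Real.exp_one_lt_d9
        linarith
      rw [div_le_iff₀ hn0]
      calc B n ≤ C * n / (Real.log n) ^ 2 := h1
        _ ≤ C * n := div_le_self (by positivity) (one_le_pow₀ hl)
        _ ≤ (D + C) * n := by nlinarith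
  have hmid : ∀ N : ℕ, ∑ n ∈ Ico 1 N, B n * (1 / (n : ℝ) ^ 2) ≤ D * S2 + C * 2 := by
    intro N
    have hterm : ∀ n ∈ Ico 1 N, B n * (1 / (n : ℝ) ^ 2) ≤ D * (1 / (n : ℝ) ^ 2) +
        C * (if z < n then 1 / (n * (Real.log n) ^ 2) else 0) := by
      intro n hn
      have hn1 : 1 ≤ n := (Finset.mem_Ico.1 hn).1
      have hn0 : (0 : ℝ) < n := by exact_mod_cast hn1
      split_ifs with h
      · have h1 := hb n ((le_max_left _ _).trans h.le)
        have h2 : B n * (1 / (n : ℝ) ^ 2) ≤ C * n / (Real.log n) ^ 2 * (1 / (n : ℝ) ^ 2) :=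
          mul_le_mul_of_nonneg_right h1 (by positivity)
        have h3 : C * n / (Real.log n) ^ 2 * (1 / (n : ℝ) ^ 2) = C * (1 / (n * (Real.log n) ^ 2)) := by
          have hl : Real.log n ≠ 0 := by
            have : (1 : ℝ) < n := by exact_mod_cast (by omega : 1 < n)
            exact (Real.log_pos this).ne'
          field_simp
        rw [h3] at h2
        have h4 : 0 ≤ D * (1 / (n : ℝ) ^ 2) := by positivity
        linarith
      · push Not at h
        have := mul_le_mul_of_nonneg_right (hBD n h) (show 0 ≤ 1 / (n : ℝ) ^ 2 by positivity)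
        linarith
    refine (Finset.sum_le_sum hterm).trans ?_
    rw [Finset.sum_add_distrib, ← Finset.mul_sum, ← Finset.mul_sum]
    refine add_le_add (mul_le_mul_of_nonneg_left (sum_inv_sq _) hD0)
      (mul_le_mul_of_nonneg_left ?_ hC0)
    -- telescoping
    have htel : ∀ M : ℕ, z ≤ M → ∑ n ∈ Ico 1 (M + 1), (if z < n then 1 / ((n : ℝ) * (Real.log n) ^ 2) else 0) ≤
        1 / Real.log z - 1 / Real.log M := by
      intro M hM
      induction M, hM using Nat.le_induction with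
      | base =>
        rw [sub_self]
        refine le_of_eq (Finset.sum_eq_zero fun n hn => ?_)
        rw [if_neg]
        have := (Finset.mem_Ico.1 hn).2
        omega
      | succ M hM ih =>
        rw [Finset.sum_Ico_succ_top (by omega)]
        rw [if_pos (by omega)]
        have h1 := inv_log_diff (n := M + 1) (by omega)
        have h2 : ((M + 1 : ℕ) : ℝ) - 1 = M := by push_cast; ring
        rw [h2] at h1
        linarith
    have hlz : 1 ≤ Real.log z := by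
      have h0 : (4 : ℝ) ≤ z := by exact_mod_cast hz4
      rw [Real.le_log_iff_exp_le (by linarith)]
      have := Real.exp_one_lt_d9
      linarith
    have h5 : 1 / Real.log z ≤ 1 := by
      rw [div_le_one (by linarith)]
      exact hlz
    have h6 : ∑ n ∈ Ico 1 N, (if z < n then 1 / ((n : ℝ) * (Real.log n) ^ 2) else 0) ≤
        ∑ n ∈ Ico 1 (max N z + 1), (if z < n then 1 / ((n : ℝ) * (Real.log n) ^ 2) else 0) := by
      refine Finset.sum_le_sum_of_subset_of_nonneg ?_ ?_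
      · intro n hn
        rw [Finset.mem_Ico] at hn ⊢
        exact ⟨hn.1, by have := le_max_left N z; omega⟩
      · intro n _ _
        split_ifs
        · positivity
        · exact le_rfl
    have h7 := htel (max N z) (le_max_right _ _)
    have h8 : 0 ≤ 1 / Real.log ((max N z : ℕ) : ℝ) := by
      have : (1 : ℝ) ≤ ((max N z : ℕ) : ℝ) := by
        exact_mod_cast (by have := le_max_right N z; omega : 1 ≤ max N z)
      have := Real.log_nonneg this
      positivity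
    linarith
  refine ⟨D + C + K * (D * S2 + C * 2), ?_, fun N => ?_⟩
  · have := S2_nonneg
    positivity
  have hS := S2_nonneg
  rcases Nat.eq_zero_or_pos N with h0 | hN
  · subst h0
    simp only [Finset.Icc_eq_empty_of_lt (by norm_num : (0 : ℕ) < 1), Finset.sum_empty, norm_zero]
    positivity
  · rw [abelC b (fun n => ni α n / n) N hN]
    have hN0 : (0 : ℝ) < N := by exact_mod_cast hN
    have h1 : ‖(∑ k ∈ Icc 1 N, b k) * (ni α N / N)‖ ≤ D + C := by
      rw [norm_mul, norm_div, ni_norm, Complex.norm_natCast, mul_one_div]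
      exact hend N hN
    have h2 : ‖∑ n ∈ Ico 1 N, (∑ k ∈ Icc 1 n, b k) * (ni α n / n - ni α (n + 1) / ((n + 1 : ℕ) : ℂ))‖ ≤
        K * (D * S2 + C * 2) := by
      refine (norm_sum_le _ _).trans ?_
      calc _ ≤ ∑ n ∈ Ico 1 N, K * (B n * (1 / (n : ℝ) ^ 2)) := by
            refine Finset.sum_le_sum fun n hn => ?_
            rw [norm_mul]
            have h3 := fdiff α n (Finset.mem_Ico.1 hn).1
            calc _ ≤ B n * ((1 + 2 * |α| + α ^ 2) / (n : ℝ) ^ 2) :=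
                  mul_le_mul_of_nonneg_left h3 (norm_nonneg _)
              _ = _ := by rw [hK]; ring
        _ = K * ∑ n ∈ Ico 1 N, B n * (1 / (n : ℝ) ^ 2) := by rw [Finset.mul_sum]
        _ ≤ _ := mul_le_mul_of_nonneg_left (hmid N) hK0
    exact (norm_add_le _ _).trans (add_le_add h1 h2)

end Pool.Agent.T2H25.ZR
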