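import Pool.Agent.T2H25.ZR.A1
import Pool.Agent.H385R2.EcD1

/-!
# Sums `∑ Λ(n) θ(n) n^(-iα) / n` for Dirichlet characters `θ`
-/

open Complex Filter Topology Finset

set_option maxHeartbeats 4000000

namespace Pool.Agent.T2H25.ZR

open Pool.Agent.H262R3.Lk.SWQ (psiC psiC_bound)
open Pool.Agent.H304R2.EC (npr npr_nonneg npr_summable)
open ArithmeticFunction (vonMangoldt vonMangoldt_nonneg)

/-- the part of the `n` not prime to `m` is bounded -/
theorem noncop (m : ℕ) (hm : m ≠ 0) : ∃ C : ℝ, 0 ≤ C ∧ ∀ N : ℕ,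
    ∑ n ∈ Icc 1 N, (if Nat.Coprime n m then 0 else vonMangoldt n / n) ≤ C := by
  set S : ℝ := ∑' n : ℕ, npr n with hS
  have hS0 : 0 ≤ S := tsum_nonneg npr_nonneg
  set D : ℝ := ∑ p ∈ m.divisors, vonMangoldt p / p with hD
  have hD0 : 0 ≤ D := Finset.sum_nonneg fun p _ => div_nonneg vonMangoldt_nonneg (Nat.cast_nonneg p)
  refine ⟨D + S, by positivity, fun N => ?_⟩
  have hterm : ∀ n ∈ Icc 1 N, (if Nat.Coprime n m then 0 else vonMangoldt n / n) ≤
      (if n ∣ m then vonMangoldt n / n else 0) + npr n := by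
    intro n hn
    have h0 : 0 ≤ vonMangoldt n / (n : ℝ) := div_nonneg vonMangoldt_nonneg (Nat.cast_nonneg n)
    have h1 := npr_nonneg n
    by_cases hc : Nat.Coprime n m
    · rw [if_pos hc]
      split_ifs <;> linarith
    · rw [if_neg hc]
      by_cases hp : n.Prime
      · have : n ∣ m := by
          by_contra h
          exact hc ((Nat.Prime.coprime_iff_not_dvd hp).2 h)
        rw [if_pos this]
        linarith
      · have h3 : npr n = vonMangoldt n / n := by
          unfold npr; rw [if_neg hp]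
        rw [h3]
        split_ifs <;> linarith
  refine (Finset.sum_le_sum hterm).trans ?_
  rw [Finset.sum_add_distrib]
  refine add_le_add ?_ (npr_summable.sum_le_tsum _ fun n _ => npr_nonneg n)
  rw [← Finset.sum_filter]
  refine Finset.sum_le_sum_of_subset_of_nonneg ?_ ?_
  · intro n hn
    rw [Finset.mem_filter] at hn
    exact Nat.mem_divisors.2 ⟨hn.2, hm⟩
  · intro n _ _
    exact div_nonneg vonMangoldt_nonneg (Nat.cast_nonneg n)

/-- two sequences of coefficients bounded by one which agree at the `n` prime to `m` -/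
lemma compare (m : ℕ) (hm : m ≠ 0) (θ θ' : ℕ → ℂ) (h1 : ∀ n, ‖θ n‖ ≤ 1) (h1' : ∀ n, ‖θ' n‖ ≤ 1)
    (hc : ∀ n : ℕ, Nat.Coprime n m → θ n = θ' n) (α : ℝ)
    (h : ∃ C : ℝ, 0 ≤ C ∧ ∀ N : ℕ, ‖∑ n ∈ Icc 1 N, (vonMangoldt n : ℂ) * θ' n * (ni α n / n)‖ ≤ C) :
    ∃ C : ℝ, 0 ≤ C ∧ ∀ N : ℕ, ‖∑ n ∈ Icc 1 N, (vonMangoldt n : ℂ) * θ n * (ni α n / n)‖ ≤ C := by
  obtain ⟨C, hC, h⟩ := h
  obtain ⟨D, hD, hN⟩ := noncop m hm
  refine ⟨C + 2 * D, by positivity, fun N => ?_⟩
  have e : ∑ n ∈ Icc 1 N, (vonMangoldt n : ℂ) * θ n * (ni α n / n) =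
      ∑ n ∈ Icc 1 N, (vonMangoldt n : ℂ) * θ' n * (ni α n / n) +
      ∑ n ∈ Icc 1 N, (vonMangoldt n : ℂ) * (θ n - θ' n) * (ni α n / n) := by
    rw [← Finset.sum_add_distrib]
    refine Finset.sum_congr rfl fun n _ => ?_
    ring
  rw [e]
  refine (norm_add_le _ _).trans (add_le_add (h N) ?_)
  refine (norm_sum_le _ _).trans ?_
  calc _ ≤ ∑ n ∈ Icc 1 N, 2 * (if Nat.Coprime n m then 0 else vonMangoldt n / n) := by
        refine Finset.sum_le_sum fun n hn => ?_
        rw [norm_mul, norm_mul, norm_div, ni_norm, Complex.norm_natCast, Complex.norm_real,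
          Real.norm_of_nonneg vonMangoldt_nonneg]
        by_cases hcn : Nat.Coprime n m
        · rw [hc n hcn, sub_self, norm_zero, if_pos hcn]
          simp
        · rw [if_neg hcn]
          have h2 : ‖θ n - θ' n‖ ≤ 2 := by
            have := norm_sub_le (θ n) (θ' n)
            linarith [h1 n, h1' n]
          calc vonMangoldt n * ‖θ n - θ' n‖ * (1 / n) ≤ vonMangoldt n * 2 * (1 / n) := by
                apply mul_le_mul_of_nonneg_right _ (by positivity)
                exact mul_le_mul_of_nonneg_left h2 vonMangoldt_nonneg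
            _ = _ := by ring
    _ = 2 * ∑ n ∈ Icc 1 N, (if Nat.Coprime n m then 0 else vonMangoldt n / n) := by
        rw [Finset.mul_sum]
    _ ≤ 2 * D := mul_le_mul_of_nonneg_left (hN N) (by norm_num)

/-- primitive characters of conductor greater than one -/
theorem sum_prim (q : ℕ) (hq : 1 < q) (χ : DirichletCharacter ℂ q) (hχ : χ.IsPrimitive) (α : ℝ) :
    ∃ C : ℝ, 0 ≤ C ∧ ∀ N : ℕ, ‖∑ n ∈ Icc 1 N, (vonMangoldt n : ℂ) * χ (n : ZMod q) *
      (ni α n / n)‖ ≤ C := by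
  obtain ⟨x1, h1⟩ := psiC_bound 1
  refine abel_bound α (fun n => (vonMangoldt n : ℂ) * χ (n : ZMod q)) 10
    (max ⌈x1⌉₊ ⌈Real.exp q⌉₊) ?_
  intro n hn
  have a1 : x1 ≤ n := (Nat.le_ceil _).trans (by exact_mod_cast (le_max_left _ _).trans hn)
  have a2 : Real.exp q ≤ n := (Nat.le_ceil _).trans (by exact_mod_cast (le_max_right _ _).trans hn)
  have a3 : (q : ℝ) ≤ (Real.log n) ^ 1 := by
    rw [pow_one, Real.le_log_iff_exp_le (lt_of_lt_of_le (Real.exp_pos _) a2)]
    exact a2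
  have h2 := h1 n a1 q hq a3 χ hχ
  unfold psiC at h2
  rw [Nat.floor_natCast] at h2
  exact h2

/-- the trivial character, `α ≠ 0` -/
theorem sum_triv (α : ℝ) (hα : α ≠ 0) :
    ∃ C : ℝ, 0 ≤ C ∧ ∀ N : ℕ, ‖∑ n ∈ Icc 1 N, (vonMangoldt n : ℂ) * 1 * (ni α n / n)‖ ≤ C := by
  obtain ⟨C0, hC0, N1, hN1⟩ := Pool.Agent.H442R2.EHI.PntErrAux.largeU 2
  obtain ⟨C1, hC1, h1⟩ := sum_ni α hα
  obtain ⟨C2, hC2, h2⟩ := abel_bound α (fun n => (vonMangoldt n : ℂ) - 1) (C0 + 2) (max N1 3) (by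
    intro n hn
    have a1 : N1 ≤ n := (le_max_left _ _).trans hn
    have a2 : 3 ≤ n := (le_max_right _ _).trans hn
    have h3 := hN1 n a1
    have hn0 : (0 : ℝ) < n := by exact_mod_cast (by omega : 0 < n)
    have hn1 : (1 : ℝ) < n := by exact_mod_cast (by omega : 1 < n)
    have hl : 0 < Real.log n := Real.log_pos hn1
    have e : ∑ k ∈ Icc 1 n, ((vonMangoldt k : ℂ) - 1) = ((Chebyshev.psi (n : ℝ) - n : ℝ) : ℂ) := by
      rw [Finset.sum_sub_distrib]
      unfold Chebyshev.psi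
      rw [Nat.floor_natCast]
      push_cast
      congr 1
      simp
    rw [e, Complex.norm_real, Real.norm_eq_abs]
    have h4 : (Real.log n) ^ 2 ≤ n := by
      have hs0 : 0 < Real.sqrt n := Real.sqrt_pos.2 hn0
      have he : 0 < Real.exp 1 := Real.exp_pos 1
      have h6 := Real.log_le_sub_one_of_pos (show 0 < Real.sqrt n / Real.exp 1 by positivity)
      rw [Real.log_div hs0.ne' he.ne', Real.log_exp, Real.log_sqrt hn0.le] at h6
      have h7 : Real.sqrt n / Real.exp 1 ≤ Real.sqrt n / 2 := by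
        apply div_le_div_of_nonneg_left hs0.le (by norm_num)
        have := Real.exp_one_gt_d9
        linarith
      have h8 : Real.log n ≤ Real.sqrt n := by linarith
      calc (Real.log n) ^ 2 ≤ (Real.sqrt n) ^ 2 := pow_le_pow_left₀ hl.le h8 2
        _ = n := Real.sq_sqrt hn0.le
    have h5 : (2 : ℝ) ≤ 2 * n / (Real.log n) ^ 2 := by
      rw [le_div_iff₀ (by positivity)]
      linarith
    calc |Chebyshev.psi (n : ℝ) - n| ≤ C0 * (n / Real.log n ^ 2) + 2 := h3
      _ ≤ C0 * (n / Real.log n ^ 2) + 2 * n / (Real.log n) ^ 2 := by linarith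
      _ = (C0 + 2) * n / Real.log n ^ 2 := by ring)
  refine ⟨C2 + C1, by positivity, fun N => ?_⟩
  have e : ∑ n ∈ Icc 1 N, (vonMangoldt n : ℂ) * 1 * (ni α n / n) =
      ∑ n ∈ Icc 1 N, ((vonMangoldt n : ℂ) - 1) * (ni α n / n) + ∑ n ∈ Icc 1 N, ni α n / n := by
    rw [← Finset.sum_add_distrib]
    refine Finset.sum_congr rfl fun n _ => ?_
    ring
  rw [e]
  exact (norm_add_le _ _).trans (add_le_add (h2 N) (h1 N))

/-- **all characters** -/
theorem sum_char (m : ℕ) [NeZero m] (θ : DirichletCharacter ℂ m) (α : ℝ) (h : θ ≠ 1 ∨ α ≠ 0) :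
    ∃ C : ℝ, 0 ≤ C ∧ ∀ N : ℕ, ‖∑ n ∈ Icc 1 N, (vonMangoldt n : ℂ) * θ (n : ZMod m) *
      (ni α n / n)‖ ≤ C := by
  have hcop : ∀ n : ℕ, Nat.Coprime n m → θ (n : ZMod m) = θ.primitiveCharacter (n : ZMod θ.conductor) := by
    intro n hn
    have h1 := θ.primitiveCharacter_apply_of_isCoprime (a := (n : ℤ)) (Nat.isCoprime_iff_coprime.2 hn)
    have e1 : ((n : ℤ) : ZMod m) = (n : ZMod m) := by push_cast; rfl
    have e2 : ((n : ℤ) : ZMod θ.conductor) = (n : ZMod θ.conductor) := by push_cast; rfl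
    rw [e1, e2] at h1
    exact h1.symm
  by_cases hθ : θ = 1
  · have hα : α ≠ 0 := by
      rcases h with h | h
      · exact absurd hθ h
      · exact h
    refine compare m (NeZero.ne m) (fun n => θ (n : ZMod m)) (fun _ => 1)
      (fun n => DirichletCharacter.norm_le_one _ _) (fun n => by simp) ?_ α (sum_triv α hα)
    intro n hn
    rw [hθ]
    exact MulChar.one_apply ((ZMod.isUnit_iff_coprime n m).2 hn)
  · have hc1 : θ.conductor ≠ 1 := fun h1 => hθ (DirichletCharacter.eq_one_iff_conductor_eq_one.2 h1)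
    have hc0 : θ.conductor ≠ 0 := θ.conductor_ne_zero
    exact compare m (NeZero.ne m) (fun n => θ (n : ZMod m))
      (fun n => θ.primitiveCharacter (n : ZMod θ.conductor))
      (fun n => DirichletCharacter.norm_le_one _ _) (fun n => DirichletCharacter.norm_le_one _ _) hcop α
      (sum_prim θ.conductor (by omega) θ.primitiveCharacter θ.primitiveCharacter_isPrimitive α)

end Pool.Agent.T2H25.ZR
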