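import Pool.Agent.T2H25.ZR.A2
import Pool.Agent.R321.RG2

/-!
# The weighted sums of `Λ(n)² ‖ψ₁(n) + ψ₂(n) n^(-iα)‖² / n`
-/

open Complex Filter Topology Set MeasureTheory

set_option maxHeartbeats 4000000

namespace Pool.Agent.T2H25.ZR

open H385
open Pool.Agent.H304R2.EC (npr npr_nonneg npr_summable)

/-- from `∑ Λ f / n = log N + O(1)` to `∑ Λ² f / n = (log N)² / 2 + O(log N)` -/
lemma sel_nat (f : ℕ → ℝ) (hf0 : ∀ n, 0 ≤ f n) (hf4 : ∀ n, f n ≤ 4)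
    (h1f : ∃ C : ℝ, 0 ≤ C ∧ ∀ N : ℕ, 1 ≤ N →
    |∑ n ∈ Finset.Icc 1 N, ArithmeticFunction.vonMangoldt n * f n / n - Real.log N| ≤ C) :
    ∃ C : ℝ, 0 ≤ C ∧ ∀ N : ℕ, 1 ≤ N →
    |∑ n ∈ Finset.Icc 1 N, (ArithmeticFunction.vonMangoldt n) ^ 2 * f n / n -
      (Real.log N) ^ 2 / 2| ≤ C * Real.log N := by
  obtain ⟨C, hC, h⟩ := h1f
  set S : ℝ := ∑' n : ℕ, Pool.Agent.H304R2.EC.npr n with hS
  have hS0 : 0 ≤ S := tsum_nonneg Pool.Agent.H304R2.EC.npr_nonneg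
  refine ⟨(1 + C) + C + 4 * S, by positivity, ?_⟩
  intro N hN
  have hlog : 0 ≤ Real.log N := Real.log_natCast_nonneg N
  have h1 := H385.mert_abel (fun n => ArithmeticFunction.vonMangoldt n * f n / n) C 1 hC
    zero_le_one h (fun s => s) continuous_id (fun x y _ _ => by rw [one_mul]) N hN
  rw [integral_id] at h1
  have h2 : |(∑ n ∈ Finset.Icc 1 N, ArithmeticFunction.vonMangoldt n * f n / n - Real.log N) *
      Real.log N| ≤ C * Real.log N := by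
    rw [abs_mul, abs_of_nonneg hlog]
    exact mul_le_mul_of_nonneg_right (h N hN) hlog
  have h3 : |∑ n ∈ Finset.Icc 1 N, (ArithmeticFunction.vonMangoldt n) ^ 2 * f n / n -
      ∑ n ∈ Finset.Icc 1 N, ArithmeticFunction.vonMangoldt n * f n / n * Real.log n| ≤
      4 * S * Real.log N := by
    rw [← Finset.sum_sub_distrib]
    calc _ ≤ ∑ n ∈ Finset.Icc 1 N, |(ArithmeticFunction.vonMangoldt n) ^ 2 * f n / n -
          ArithmeticFunction.vonMangoldt n * f n / n * Real.log n| :=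
          Finset.abs_sum_le_sum_abs _ _
      _ ≤ ∑ n ∈ Finset.Icc 1 N, 4 * Real.log N * Pool.Agent.H304R2.EC.npr n := by
          apply Finset.sum_le_sum
          intro n hn
          have hn1 : 1 ≤ n := (Finset.mem_Icc.mp hn).1
          have hnN : n ≤ N := (Finset.mem_Icc.mp hn).2
          have hn0 : (0 : ℝ) < n := by exact_mod_cast hn1
          have hΛ : 0 ≤ ArithmeticFunction.vonMangoldt n := ArithmeticFunction.vonMangoldt_nonneg
          have hΛ2 : ArithmeticFunction.vonMangoldt n ≤ Real.log n :=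
            ArithmeticFunction.vonMangoldt_le_log
          have hlN : Real.log n ≤ Real.log N := Real.log_le_log hn0 (by exact_mod_cast hnN)
          have hrew : (ArithmeticFunction.vonMangoldt n) ^ 2 * f n / n -
              ArithmeticFunction.vonMangoldt n * f n / n * Real.log n =
              -(ArithmeticFunction.vonMangoldt n / n * (f n *
                (Real.log n - ArithmeticFunction.vonMangoldt n))) := by ring
          rw [hrew, abs_neg]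
          by_cases hp : n.Prime
          · rw [ArithmeticFunction.vonMangoldt_apply_prime hp, sub_self, mul_zero, mul_zero,
              abs_zero]
            have := Pool.Agent.H304R2.EC.npr_nonneg n
            positivity
          · have e3 : Pool.Agent.H304R2.EC.npr n = ArithmeticFunction.vonMangoldt n / n := by
              unfold Pool.Agent.H304R2.EC.npr; rw [if_neg hp]
            rw [e3, abs_of_nonneg (mul_nonneg (div_nonneg hΛ hn0.le)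
              (mul_nonneg (hf0 n) (by linarith))), mul_comm]
            apply mul_le_mul_of_nonneg_right _ (div_nonneg hΛ hn0.le)
            apply mul_le_mul (hf4 n) (by linarith) (by linarith) (by norm_num)
      _ = 4 * Real.log N * ∑ n ∈ Finset.Icc 1 N, Pool.Agent.H304R2.EC.npr n := by rw [Finset.mul_sum]
      _ ≤ 4 * Real.log N * S := by
          apply mul_le_mul_of_nonneg_left _ (by positivity)
          exact Pool.Agent.H304R2.EC.npr_summable.sum_le_tsum _ (fun n _ => Pool.Agent.H304R2.EC.npr_nonneg n)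
      _ = 4 * S * Real.log N := by ring
  rw [abs_le] at h1 h2 h3 ⊢
  constructor <;> nlinarith [h1.1, h1.2, h2.1, h2.2, h3.1, h3.2]

lemma sel_real (f : ℕ → ℝ) (h1f : ∃ C : ℝ, 0 ≤ C ∧ ∀ N : ℕ, 1 ≤ N →
    |∑ n ∈ Finset.Icc 1 N, (ArithmeticFunction.vonMangoldt n) ^ 2 * f n / n -
      (Real.log N) ^ 2 / 2| ≤ C * Real.log N) : ∃ C : ℝ, 0 ≤ C ∧ ∀ x : ℝ, 1 ≤ x →
    |∑ n ∈ Finset.Icc 1 ⌊x⌋₊, (ArithmeticFunction.vonMangoldt n) ^ 2 * f n / n -
      (Real.log x) ^ 2 / 2| ≤ C * (1 + Real.log x) := by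
  obtain ⟨C, hC, h⟩ := h1f
  refine ⟨C + 1, by positivity, fun x hx => ?_⟩
  have hN : 1 ≤ ⌊x⌋₊ := (Nat.one_le_floor_iff x).2 hx
  have h1 := h ⌊x⌋₊ hN
  set N := ⌊x⌋₊ with hNdef
  have hN0 : (0 : ℝ) < N := by exact_mod_cast hN
  have hNx : (N : ℝ) ≤ x := Nat.floor_le (by linarith)
  have hxN : x < N + 1 := Nat.lt_floor_add_one x
  have hlogN : 0 ≤ Real.log N := Real.log_natCast_nonneg N
  have hl1 : Real.log N ≤ Real.log x := Real.log_le_log hN0 hNx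
  have hl2 : Real.log x - Real.log N ≤ 1 := by
    have h2 := (H385.mert_log_diff N hN).2
    have h3 : Real.log x ≤ Real.log ((N + 1 : ℕ) : ℝ) := by
      apply Real.log_le_log (by linarith)
      push_cast
      exact hxN.le
    linarith
  have h4 : |(Real.log N) ^ 2 / 2 - (Real.log x) ^ 2 / 2| ≤ Real.log x := by
    rw [abs_sub_comm, abs_of_nonneg (by nlinarith)]
    nlinarith
  have h5 : C * Real.log N ≤ C * (1 + Real.log x) := mul_le_mul_of_nonneg_left (by linarith) hC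
  calc _ = |(∑ n ∈ Finset.Icc 1 N, (ArithmeticFunction.vonMangoldt n) ^ 2 * f n / n -
        (Real.log N) ^ 2 / 2) + ((Real.log N) ^ 2 / 2 - (Real.log x) ^ 2 / 2)| := by
        congr 1; ring
    _ ≤ _ := abs_add_le _ _
    _ ≤ (C + 1) * (1 + Real.log x) := by linarith

/-- the coefficients of the product -/
noncomputable def cA {f₁ f₂ : ℕ} (ψ₁ : DirichletCharacter ℂ f₁) (ψ₂ : DirichletCharacter ℂ f₂)
    (α : ℝ) (n : ℕ) : ℂ := ψ₁ (n : ZMod f₁) + ψ₂ (n : ZMod f₂) * ni α n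

/-- the normalised coefficients -/
noncomputable def cA' {f₁ f₂ : ℕ} (ψ₁ : DirichletCharacter ℂ f₁) (ψ₂ : DirichletCharacter ℂ f₂)
    (α : ℝ) (n : ℕ) : ℂ := ((Real.sqrt 2 : ℝ) : ℂ)⁻¹ * cA ψ₁ ψ₂ α n

lemma cA_eq {f₁ f₂ : ℕ} (ψ₁ : DirichletCharacter ℂ f₁) (ψ₂ : DirichletCharacter ℂ f₂)
    (α : ℝ) (n : ℕ) : cA ψ₁ ψ₂ α n = ((Real.sqrt 2 : ℝ) : ℂ) * cA' ψ₁ ψ₂ α n := by
  unfold cA'
  have h : ((Real.sqrt 2 : ℝ) : ℂ) ≠ 0 := by
    rw [Complex.ofReal_ne_zero]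
    positivity
  rw [← mul_assoc, mul_inv_cancel₀ h, one_mul]

lemma cA_norm {f₁ f₂ : ℕ} (ψ₁ : DirichletCharacter ℂ f₁) (ψ₂ : DirichletCharacter ℂ f₂)
    (α : ℝ) (n : ℕ) : ‖cA ψ₁ ψ₂ α n‖ ≤ 2 := by
  unfold cA
  have h1 := DirichletCharacter.norm_le_one ψ₁ (n : ZMod f₁)
  have h2 := DirichletCharacter.norm_le_one ψ₂ (n : ZMod f₂)
  calc _ ≤ ‖ψ₁ (n : ZMod f₁)‖ + ‖ψ₂ (n : ZMod f₂) * ni α n‖ := norm_add_le _ _
    _ ≤ 2 := by rw [norm_mul, ni_norm, mul_one]; linarith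

lemma cA'_sq {f₁ f₂ : ℕ} (ψ₁ : DirichletCharacter ℂ f₁) (ψ₂ : DirichletCharacter ℂ f₂)
    (α : ℝ) (n : ℕ) : ‖cA' ψ₁ ψ₂ α n‖ ^ 2 = ‖cA ψ₁ ψ₂ α n‖ ^ 2 / 2 := by
  unfold cA'
  rw [norm_mul, mul_pow, norm_inv, Complex.norm_real, Real.norm_of_nonneg (Real.sqrt_nonneg _),
    inv_pow, Real.sq_sqrt (by norm_num)]
  ring

lemma cA'_le {f₁ f₂ : ℕ} (ψ₁ : DirichletCharacter ℂ f₁) (ψ₂ : DirichletCharacter ℂ f₂)
    (α : ℝ) (n : ℕ) : ‖cA' ψ₁ ψ₂ α n‖ ≤ 2 := by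
  have h := cA'_sq ψ₁ ψ₂ α n
  have h1 := cA_norm ψ₁ ψ₂ α n
  have h2 : ‖cA ψ₁ ψ₂ α n‖ ^ 2 ≤ 2 ^ 2 := pow_le_pow_left₀ (norm_nonneg _) h1 2
  have h3 : ‖cA' ψ₁ ψ₂ α n‖ ^ 2 ≤ 2 ^ 2 := by rw [h]; linarith
  exact le_of_sq_le_sq h3 (by norm_num)

/-- the quotient of the two characters -/
noncomputable def quo {f₁ f₂ : ℕ} (ψ₁ : DirichletCharacter ℂ f₁) (ψ₂ : DirichletCharacter ℂ f₂) :
    DirichletCharacter ℂ (f₁ * f₂) := pm ψ₁⁻¹ ψ₂

lemma quo_apply {f₁ f₂ : ℕ} (ψ₁ : DirichletCharacter ℂ f₁) (ψ₂ : DirichletCharacter ℂ f₂) (n : ℕ) :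
    quo ψ₁ ψ₂ (n : ZMod (f₁ * f₂)) = (starRingEnd ℂ) (ψ₁ (n : ZMod f₁)) * ψ₂ (n : ZMod f₂) := by
  unfold quo
  rw [pm_apply, MulChar.inv_apply_eq_inv']
  congr 1
  by_cases h : IsUnit (n : ZMod f₁)
  · have h1 : ‖ψ₁ (n : ZMod f₁)‖ = 1 := ψ₁.unit_norm_eq_one h.unit
    rw [Complex.inv_def, Complex.normSq_eq_norm_sq, h1]
    simp
  · rw [ψ₁.map_nonunit h]
    simp

lemma norm_sq_char {f : ℕ} [NeZero f] (ψ : DirichletCharacter ℂ f) (n : ℕ) :
    ‖ψ (n : ZMod f)‖ ^ 2 = if Nat.Coprime n f then 1 else 0 := by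
  split_ifs with h
  · have hu : IsUnit (n : ZMod f) := (ZMod.isUnit_iff_coprime n f).2 h
    have h1 : ‖ψ (n : ZMod f)‖ = 1 := ψ.unit_norm_eq_one hu.unit
    rw [h1, one_pow]
  · have hu : ¬ IsUnit (n : ZMod f) := fun hu => h ((ZMod.isUnit_iff_coprime n f).1 hu)
    rw [ψ.map_nonunit hu, norm_zero]
    norm_num

lemma cA_sq {f₁ f₂ : ℕ} (ψ₁ : DirichletCharacter ℂ f₁) (ψ₂ : DirichletCharacter ℂ f₂)
    (α : ℝ) (n : ℕ) : ‖cA ψ₁ ψ₂ α n‖ ^ 2 = ‖ψ₁ (n : ZMod f₁)‖ ^ 2 + ‖ψ₂ (n : ZMod f₂)‖ ^ 2 +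
      2 * (quo ψ₁ ψ₂ (n : ZMod (f₁ * f₂)) * ni α n).re := by
  unfold cA
  rw [quo_apply]
  have h := Complex.normSq_add (ψ₁ (n : ZMod f₁)) (ψ₂ (n : ZMod f₂) * ni α n)
  rw [Complex.normSq_eq_norm_sq, Complex.normSq_eq_norm_sq, Complex.normSq_eq_norm_sq, norm_mul,
    ni_norm, mul_one] at h
  rw [h]
  have e : (ψ₁ (n : ZMod f₁) * (starRingEnd ℂ) (ψ₂ (n : ZMod f₂) * ni α n)).re =
      ((starRingEnd ℂ) (ψ₁ (n : ZMod f₁)) * ψ₂ (n : ZMod f₂) * ni α n).re := by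
    rw [← Complex.conj_re]
    congr 1
    simp only [map_mul, Complex.conj_conj]
    ring
  rw [e]

theorem selb_cA (f₁ f₂ : ℕ) [NeZero f₁] [NeZero f₂] (ψ₁ : DirichletCharacter ℂ f₁)
    (ψ₂ : DirichletCharacter ℂ f₂) (α : ℝ) (h : quo ψ₁ ψ₂ ≠ 1 ∨ α ≠ 0) :
    ∃ C : ℝ, Selb (cA' ψ₁ ψ₂ α) C := by
  haveI : NeZero (f₁ * f₂) := ⟨Nat.mul_ne_zero (NeZero.ne f₁) (NeZero.ne f₂)⟩
  set f : ℕ → ℝ := fun n => ‖cA' ψ₁ ψ₂ α n‖ ^ 2 with hf
  have h0 : ∀ n, 0 ≤ f n := fun n => by positivity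
  have h4 : ∀ n, f n ≤ 4 := by
    intro n
    have := cA'_le ψ₁ ψ₂ α n
    calc f n ≤ 2 ^ 2 := pow_le_pow_left₀ (norm_nonneg _) this 2
      _ = 4 := by norm_num
  obtain ⟨C0, hC0, hc⟩ := sum_char (f₁ * f₂) (quo ψ₁ ψ₂) α h
  obtain ⟨D1, hD1, hn1⟩ := noncop f₁ (NeZero.ne f₁)
  obtain ⟨D2, hD2, hn2⟩ := noncop f₂ (NeZero.ne f₂)
  have hone : ∃ C : ℝ, 0 ≤ C ∧ ∀ N : ℕ, 1 ≤ N →
    |∑ n ∈ Finset.Icc 1 N, ArithmeticFunction.vonMangoldt n * f n / n - Real.log N| ≤ C := by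
    refine ⟨6 + D1 + D2 + C0, by positivity, fun N hN => ?_⟩
    have hM1 := H370.nt_mertens_lower N hN
    have hM2 := H370.nt_mertens_upper N hN
    have e : ∑ n ∈ Finset.Icc 1 N, ArithmeticFunction.vonMangoldt n * f n / n =
        ∑ n ∈ Finset.Icc 1 N, ArithmeticFunction.vonMangoldt n / n -
        (∑ n ∈ Finset.Icc 1 N, (if Nat.Coprime n f₁ then 0 else
          ArithmeticFunction.vonMangoldt n / n)) / 2 -
        (∑ n ∈ Finset.Icc 1 N, (if Nat.Coprime n f₂ then 0 else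
          ArithmeticFunction.vonMangoldt n / n)) / 2 +
        (∑ n ∈ Finset.Icc 1 N, (ArithmeticFunction.vonMangoldt n : ℂ) *
          quo ψ₁ ψ₂ (n : ZMod (f₁ * f₂)) * (ni α n / n)).re := by
      rw [Complex.re_sum, Finset.sum_div, Finset.sum_div, ← Finset.sum_sub_distrib,
        ← Finset.sum_sub_distrib, ← Finset.sum_add_distrib]
      refine Finset.sum_congr rfl fun n _ => ?_
      have e1 : ((ArithmeticFunction.vonMangoldt n : ℂ) * quo ψ₁ ψ₂ (n : ZMod (f₁ * f₂)) *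
          (ni α n / n)).re = ArithmeticFunction.vonMangoldt n / n *
            (quo ψ₁ ψ₂ (n : ZMod (f₁ * f₂)) * ni α n).re := by
        have e2 : (ArithmeticFunction.vonMangoldt n : ℂ) * quo ψ₁ ψ₂ (n : ZMod (f₁ * f₂)) *
          (ni α n / n) = ((ArithmeticFunction.vonMangoldt n / n : ℝ) : ℂ) *
            (quo ψ₁ ψ₂ (n : ZMod (f₁ * f₂)) * ni α n) := by
          push_cast
          ring
        rw [e2, Complex.re_ofReal_mul]
      rw [e1]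
      simp only [hf]
      rw [cA'_sq, cA_sq, norm_sq_char, norm_sq_char]
      split_ifs <;> ring
    have a1 := hn1 N
    have a2 := hn2 N
    have b1 : 0 ≤ ∑ n ∈ Finset.Icc 1 N, (if Nat.Coprime n f₁ then 0 else
          ArithmeticFunction.vonMangoldt n / n) := by
      refine Finset.sum_nonneg fun n _ => ?_
      split_ifs
      · exact le_rfl
      · exact div_nonneg ArithmeticFunction.vonMangoldt_nonneg (Nat.cast_nonneg n)
    have b2 : 0 ≤ ∑ n ∈ Finset.Icc 1 N, (if Nat.Coprime n f₂ then 0 else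
          ArithmeticFunction.vonMangoldt n / n) := by
      refine Finset.sum_nonneg fun n _ => ?_
      split_ifs
      · exact le_rfl
      · exact div_nonneg ArithmeticFunction.vonMangoldt_nonneg (Nat.cast_nonneg n)
    have a3 := (Complex.abs_re_le_norm _).trans (hc N)
    rw [e]
    rw [abs_le] at a3 ⊢
    constructor <;> linarith [a3.1, a3.2]
  obtain ⟨C, hC, hh⟩ := sel_real f (sel_nat f h0 h4 hone)
  refine ⟨C, fun x hx => ?_⟩
  have h1 := hh x hx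
  refine le_trans (le_of_eq ?_) h1
  rfl

end Pool.Agent.T2H25.ZR
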