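import Pool.Agent.T2H25.ZR.A3

/-!
# Shifted L-functions and the product `L(s, χ ψ₁) L(s + iα, χ ψ₂)`
-/

open Complex Filter Topology Set MeasureTheory

set_option maxHeartbeats 4000000

namespace Pool.Agent.T2H25.ZR

open H385
open Pool.Agent.R321.RC (goodD_mul)
open Pool.Agent.R321.RG (LL LL_eq)

/-- `F (s + iα)` -/
noncomputable def sh (α : ℝ) (F : ℂ → ℂ) : ℂ → ℂ := fun s => F (s + (α : ℂ) * I)

lemma sh_re (α : ℝ) (s : ℂ) : (s + (α : ℂ) * I).re = s.re := by simp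

lemma sh_im (α : ℝ) (s : ℂ) : (s + (α : ℂ) * I).im = s.im + α := by simp

lemma order_sh (α : ℝ) {F : ℂ → ℂ} {s : ℂ} :
    analyticOrderAt (sh α F) s = analyticOrderAt F (s + (α : ℂ) * I) := by
  have hg : AnalyticAt ℂ (fun z : ℂ => z + (α : ℂ) * I) s := analyticAt_id.add analyticAt_const
  have hd : deriv (fun z : ℂ => z + (α : ℂ) * I) s ≠ 0 := by
    rw [deriv_add_const, deriv_id'']
    exact one_ne_zero
  exact analyticOrderAt_comp_of_deriv_ne_zero (f := F) hg hd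

lemma deriv_sh (α : ℝ) (F : ℂ → ℂ) (s : ℂ) : deriv (sh α F) s = deriv F (s + (α : ℂ) * I) := by
  unfold sh
  exact deriv_comp_add_const ..

lemma ni_cpow (α : ℝ) {n : ℕ} (hn : n ≠ 0) (s : ℂ) :
    (n : ℂ) ^ (-(s + (α : ℂ) * I)) = ni α n * (n : ℂ) ^ (-s) := by
  have hn' : (n : ℂ) ≠ 0 := by exact_mod_cast hn
  rw [neg_add, Complex.cpow_add _ _ hn', mul_comm]
  congr 1
  unfold ni
  rw [Complex.cpow_def_of_ne_zero hn', Complex.natCast_log.symm]
  congr 1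
  push_cast
  ring

lemma aux_le {α t Q : ℝ} (hα : 0 ≤ α) (ht : 1 ≤ t) (hQ : 1 ≤ Q) :
    Q * (t + α) ≤ (1 + α) * Q * t := by
  have h1 : α * 1 ≤ α * t := mul_le_mul_of_nonneg_left ht hα
  calc Q * (t + α) ≤ Q * (t + α * t) := mul_le_mul_of_nonneg_left (by linarith) (by linarith)
    _ = _ := by ring

theorem goodU_shift {A Q : ℝ} {F : ℂ → ℂ} {a : ℕ → ℂ} (hA : 1 ≤ A) (hQ : 1 ≤ Q)
    (hF : GoodU A Q F a) (α : ℝ) (hα : 0 ≤ α) :
    GoodU (A + α) ((1 + α) * Q) (sh α F) (fun n => a n * ni α n) := by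
  have hA' : A ≤ A + α := by linarith
  refine ⟨?_, ?_, ?_, ?_, ?_, ?_, ?_, ?_, ?_⟩
  · intro s hs
    have h1 : AnalyticAt ℂ F (s + (α : ℂ) * I) := hF.an _ (by rw [sh_im]; linarith)
    exact AnalyticAt.comp' (f := fun z : ℂ => z + (α : ℂ) * I) h1 (analyticAt_id.add analyticAt_const)
  · intro s h1 h2 h3
    have hb := hF.growth (s + (α : ℂ) * I) (by rw [sh_re]; exact h1) (by rw [sh_re]; exact h2)
      (by rw [sh_im]; linarith)
    rw [sh_im] at hb
    have e1 : 0 ≤ Q * (s.im + α) := by positivity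
    have e2 : Q * (s.im + α) ≤ (1 + α) * Q * s.im := aux_le hα h3 hQ
    have e3 : 1 ≤ (1 + α) * Q * s.im := by
      have : 1 ≤ (1 + α) * Q := by nlinarith
      nlinarith
    calc ‖F (s + (α : ℂ) * I)‖ ≤ A * (Q * (s.im + α)) ^ A := hb
      _ ≤ A * ((1 + α) * Q * s.im) ^ A := by
        apply mul_le_mul_of_nonneg_left _ (by linarith)
        exact Real.rpow_le_rpow e1 e2 (by linarith)
      _ ≤ (A + α) * ((1 + α) * Q * s.im) ^ (A + α) := by
        apply mul_le_mul hA' _ (by positivity) (by linarith)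
        exact Real.rpow_le_rpow_of_exponent_le e3 hA'
  · intro t ht
    have h1 := hF.lower (t + α) (by linarith)
    have e : ((⟨2, t⟩ : ℂ) + (α : ℂ) * I) = (⟨2, t + α⟩ : ℂ) := by
      apply Complex.ext <;> simp
    unfold sh
    rw [e]
    refine le_trans ?_ h1
    exact inv_anti₀ (by linarith) hA'
  · intro s h1 h2
    exact hF.nzr _ (by rw [sh_re]; exact h1) (by rw [sh_im]; linarith)
  · intro s h1 h2
    exact hF.nzl _ (by rw [sh_re]; exact h1) (by rw [sh_im]; linarith)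
  · intro s h1 h2 h3
    rw [order_sh, order_sh]
    have h4 := hF.symm (s + (α : ℂ) * I) (by rw [sh_re]; exact h1) (by rw [sh_re]; exact h2)
      (by rw [sh_im]; linarith)
    rw [← h4]
    congr 1
    simp only [map_add, map_mul, Complex.conj_ofReal, Complex.conj_I]
    ring
  · intro n
    rw [norm_mul, ni_norm, mul_one]
    exact hF.ha n
  · intro s h1 h2
    rw [deriv_sh]
    have h3 := hF.ld (s + (α : ℂ) * I) (by rw [sh_re]; exact h1) (by rw [sh_im]; linarith)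
    unfold sh
    rw [h3]
    congr 1
    refine tsum_congr fun n => ?_
    rcases Nat.eq_zero_or_pos n with hn | hn
    · subst hn
      have h0 := hF.ha 0
      rw [ArithmeticFunction.map_zero] at h0
      rw [norm_le_zero_iff.1 h0]
      ring
    · rw [ni_cpow α hn.ne']
      ring
  · intro s h1 h2 h3 h4
    have i2 : 0 < s.im := by linarith
    have hb := hF.left (s + (α : ℂ) * I) (by rw [sh_re]; exact h1) (by rw [sh_re]; exact h2)
      (by rw [sh_im]; linarith) h4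
    rw [sh_im] at hb
    have e0 : 1 - (starRingEnd ℂ) (s + (α : ℂ) * I) = (1 - (starRingEnd ℂ) s) + (α : ℂ) * I := by
      simp only [map_add, map_mul, Complex.conj_ofReal, Complex.conj_I]
      ring
    rw [e0] at hb
    rw [deriv_sh, deriv_sh]
    unfold sh
    set d : ℝ := Real.log ((1 + α) * Q * s.im) - Real.log (Q * (s.im + α)) with hd
    have hd0 : 0 ≤ d := by
      rw [hd, sub_nonneg]
      exact Real.log_le_log (by positivity) (aux_le hα h3 hQ)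
    have hd1 : d ≤ α := by
      rw [hd, ← Real.log_div (by positivity) (by positivity)]
      have e1 : (1 + α) * Q * s.im / (Q * (s.im + α)) ≤ 1 + α := by
        rw [div_le_iff₀ (by positivity)]
        have : Q * s.im ≤ Q * (s.im + α) := mul_le_mul_of_nonneg_left (by linarith) (by linarith)
        nlinarith
      calc Real.log ((1 + α) * Q * s.im / (Q * (s.im + α))) ≤ Real.log (1 + α) :=
            Real.log_le_log (by positivity) e1
        _ ≤ (1 + α) - 1 := Real.log_le_sub_one_of_pos (by linarith)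
        _ = α := by ring
    have e1 : ((Real.log ((1 + α) * Q * s.im) : ℝ) : ℂ) =
        ((Real.log (Q * (s.im + α)) : ℝ) : ℂ) + ((d : ℝ) : ℂ) := by
      rw [← Complex.ofReal_add, hd]
      congr 1
      ring
    rw [e1]
    have hdn : ‖((d : ℝ) : ℂ)‖ ≤ α := by
      rw [Complex.norm_real, Real.norm_of_nonneg hd0]
      exact hd1
    refine le_trans ?_ (add_le_add hb hdn)
    refine le_trans (le_of_eq ?_) (norm_add_le _ _)
    congr 1
    ring

theorem goodU_mono {A A' Q : ℝ} {F : ℂ → ℂ} {a : ℕ → ℂ} (hA : 1 ≤ A) (hAA : A ≤ A') (hQ : 1 ≤ Q)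
    (hF : GoodU A Q F a) : GoodU A' Q F a := by
  refine ⟨hF.an, ?_, ?_, hF.nzr, hF.nzl, hF.symm, hF.ha, hF.ld, ?_⟩
  · intro s h1 h2 h3
    have hx : 1 ≤ Q * s.im := one_le_mul_of_one_le_of_one_le hQ h3
    calc ‖F s‖ ≤ A * (Q * s.im) ^ A := hF.growth s h1 h2 h3
      _ ≤ A' * (Q * s.im) ^ A' := by
        apply mul_le_mul hAA _ (by positivity) (by linarith)
        exact Real.rpow_le_rpow_of_exponent_le hx hAA
  · intro t ht
    exact le_trans (inv_anti₀ (by linarith) hAA) (hF.lower t ht)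
  · intro s h1 h2 h3 h4
    exact (hF.left s h1 h2 h3 h4).trans hAA

/-- change of the conductor by a factor -/
theorem goodD_rescale {B Q R : ℝ} {F : ℂ → ℂ} {a : ℕ → ℂ} (hB : 1 ≤ B) (hQ : 1 ≤ Q) (hR : 1 ≤ R)
    (h : GoodD 2 B (R * Q) F a) : GoodD 2 (B * R ^ B + 2 * R) Q F a := by
  have h2B : (1 : ℝ) ≤ R ^ B := Real.one_le_rpow hR (by linarith)
  have hBB : B ≤ B * R ^ B := by
    calc B = B * 1 := (mul_one B).symm
      _ ≤ B * R ^ B := mul_le_mul_of_nonneg_left h2B (by linarith)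
  refine ⟨h.an, ?_, ?_, h.nzr, h.nzl, h.symm, h.ha, h.ld, ?_⟩
  · intro s h1 h2 h3
    have hx : 1 ≤ Q * s.im := one_le_mul_of_one_le_of_one_le hQ h3
    have hx0 : 0 ≤ Q * s.im := by linarith
    have e1 : (R * Q * s.im) ^ B = R ^ B * (Q * s.im) ^ B := by
      rw [show R * Q * s.im = R * (Q * s.im) by ring, Real.mul_rpow (by linarith) hx0]
    have e2 : (Q * s.im) ^ B ≤ (Q * s.im) ^ (B * R ^ B + 2 * R) :=
      Real.rpow_le_rpow_of_exponent_le hx (by linarith)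
    have e3 : 0 ≤ (Q * s.im) ^ (B * R ^ B + 2 * R) := by positivity
    calc ‖F s‖ ≤ B * (R * Q * s.im) ^ B := h.growth s h1 h2 h3
      _ = (B * R ^ B) * (Q * s.im) ^ B := by rw [e1]; ring
      _ ≤ (B * R ^ B + 2 * R) * (Q * s.im) ^ (B * R ^ B + 2 * R) := by
          refine mul_le_mul (by linarith) e2 (by positivity) (by positivity)
  · intro t ht
    refine le_trans ?_ (h.lower t ht)
    exact inv_anti₀ (by linarith) (by linarith)
  · intro s h1 h2 h3 h4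
    have b := h.left s h1 h2 h3 h4
    have hQs : 0 < Q * s.im := by
      have : 1 ≤ Q * s.im := one_le_mul_of_one_le_of_one_le hQ h3
      linarith
    have e1 : ((2 * Real.log (R * Q * s.im) : ℝ) : ℂ) =
        ((2 * Real.log (Q * s.im) : ℝ) : ℂ) + ((2 * Real.log R : ℝ) : ℂ) := by
      rw [← Complex.ofReal_add]
      congr 1
      rw [show R * Q * s.im = R * (Q * s.im) by ring, Real.log_mul (by linarith) hQs.ne']
      ring
    rw [e1] at b
    have hl : ‖((2 * Real.log R : ℝ) : ℂ)‖ ≤ 2 * R := by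
      have h0 : 0 ≤ Real.log R := Real.log_nonneg hR
      rw [Complex.norm_real, Real.norm_of_nonneg (by positivity)]
      have := Real.log_le_sub_one_of_pos (show 0 < R by linarith)
      linarith
    calc _ = ‖(deriv F s / F s + (((2 * Real.log (Q * s.im) : ℝ) : ℂ) +
          ((2 * Real.log R : ℝ) : ℂ)) + (starRingEnd ℂ) (deriv F (1 - (starRingEnd ℂ) s) /
          F (1 - (starRingEnd ℂ) s))) - ((2 * Real.log R : ℝ) : ℂ)‖ := by
          congr 1
          ring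
      _ ≤ B + 2 * R := (norm_sub_le _ _).trans (add_le_add b hl)
      _ ≤ B * R ^ B + 2 * R := by linarith

section two

variable {f₁ f₂ : ℕ} (ψ₁ : DirichletCharacter ℂ f₁) (ψ₂ : DirichletCharacter ℂ f₂) (α : ℝ)

/-- `L(s, χ ψ)` -/
noncomputable def Lt {f : ℕ} (ψ : DirichletCharacter ℂ f) (q : ℕ) (χ : DirichletCharacter ℂ q) :
    ℂ → ℂ := LL (q * f) (pm χ ψ)

/-- the product `L(s, χ ψ₁) L(s + iα, χ ψ₂)` -/
noncomputable def FF (q : ℕ) (χ : DirichletCharacter ℂ q) : ℂ → ℂ :=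
  fun s => Lt ψ₁ q χ s * sh α (Lt ψ₂ q χ) s

/-- each of the twists satisfies the conditions `GoodU` -/
theorem good_tw : ∃ A : ℝ, 1 ≤ A ∧ ∀ (f : ℕ) [NeZero f] (ψ : DirichletCharacter ℂ f),
    ψ.IsPrimitive → ∀ (q : ℕ) (χ : DirichletCharacter ℂ q), 1 ≤ q →
    Nat.Coprime q f → χ.IsPrimitive →
    GoodU A ((q : ℝ) * f) (Lt ψ q χ) (fun n => χ (n : ZMod q) * ψ (n : ZMod f) *
      (ArithmeticFunction.vonMangoldt n : ℂ)) := by
  obtain ⟨A, hA, hgood⟩ := good_dirichlet_U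
  refine ⟨A, hA, fun f _ ψ hψ q χ hq hc hχ => ?_⟩
  have hq0 : NeZero q := ⟨by omega⟩
  have h40 : NeZero (q * f) := ⟨Nat.mul_ne_zero (NeZero.ne q) (NeZero.ne f)⟩
  have hprim : (pm χ ψ).IsPrimitive := pm_primitive hc hχ hψ
  unfold Lt
  rw [LL_eq]
  have h := hgood (q * f) (pm χ ψ) hprim
  have e1 : (((q * f : ℕ) : ℝ)) = (q : ℝ) * f := by push_cast; ring
  rw [e1] at h
  have e2 : (fun n : ℕ => pm χ ψ (n : ZMod (q * f)) * (ArithmeticFunction.vonMangoldt n : ℂ)) =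
      (fun n : ℕ => χ (n : ZMod q) * ψ (n : ZMod f) * (ArithmeticFunction.vonMangoldt n : ℂ)) := by
    funext n
    rw [pm_apply]
  rw [e2] at h
  exact h

theorem good_both [NeZero f₁] [NeZero f₂] (h₁ : ψ₁.IsPrimitive) (h₂ : ψ₂.IsPrimitive)
    (hα : 0 ≤ α) : ∃ A : ℝ, 1 ≤ A ∧ ∀ (q : ℕ) (χ : DirichletCharacter ℂ q), 1 ≤ q →
    Nat.Coprime q (f₁ * f₂) → χ.IsPrimitive →
    GoodU A ((q : ℝ) * f₁) (Lt ψ₁ q χ) (fun n => χ (n : ZMod q) * ψ₁ (n : ZMod f₁) *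
      (ArithmeticFunction.vonMangoldt n : ℂ)) ∧
    GoodU A ((1 + α) * ((q : ℝ) * f₂)) (sh α (Lt ψ₂ q χ)) (fun n => χ (n : ZMod q) *
      ψ₂ (n : ZMod f₂) * (ArithmeticFunction.vonMangoldt n : ℂ) * ni α n) := by
  obtain ⟨A, hA, h⟩ := good_tw
  refine ⟨A + α, by linarith, fun q χ hq hc hχ => ?_⟩
  have hf1 : 1 ≤ f₁ := NeZero.one_le
  have hf2 : 1 ≤ f₂ := NeZero.one_le
  have q1 : (1 : ℝ) ≤ q := by exact_mod_cast hq
  have c1 : Nat.Coprime q f₁ := Nat.Coprime.coprime_dvd_right (Nat.dvd_mul_right f₁ f₂) hc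
  have c2 : Nat.Coprime q f₂ := Nat.Coprime.coprime_dvd_right (Nat.dvd_mul_left f₂ f₁) hc
  have k1 : (1 : ℝ) ≤ (q : ℝ) * f₁ := one_le_mul_of_one_le_of_one_le q1 (by exact_mod_cast hf1)
  have k2 : (1 : ℝ) ≤ (q : ℝ) * f₂ := one_le_mul_of_one_le_of_one_le q1 (by exact_mod_cast hf2)
  exact ⟨goodU_mono hA (by linarith) k1 (h f₁ ψ₁ h₁ q χ hq c1 hχ),
    goodU_shift hA k2 (h f₂ ψ₂ h₂ q χ hq c2 hχ) α hα⟩

/-- the product satisfies the conditions `GoodD` -/
theorem FF_good [NeZero f₁] [NeZero f₂] (h₁ : ψ₁.IsPrimitive) (h₂ : ψ₂.IsPrimitive)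
    (hα : 0 ≤ α) (M : ℕ) (hM : ∀ q : ℕ, Nat.Coprime q M → Nat.Coprime q (f₁ * f₂)) :
    ∃ A : ℝ, 1 ≤ A ∧ TwD 2 A M (cA ψ₁ ψ₂ α) (FF ψ₁ ψ₂ α) := by
  obtain ⟨A, hA, hg⟩ := good_both ψ₁ ψ₂ α h₁ h₂ hα
  set B : ℝ := 2 * A ^ 2 with hB
  have hB1 : 1 ≤ B := by
    have : 1 ≤ A ^ 2 := one_le_pow₀ hA
    rw [hB]; linarith
  have hf1 : (1 : ℝ) ≤ f₁ := by exact_mod_cast (NeZero.one_le : 1 ≤ f₁)
  have hf2 : (1 : ℝ) ≤ f₂ := by exact_mod_cast (NeZero.one_le : 1 ≤ f₂)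
  set R : ℝ := Real.sqrt ((1 + α) * ((f₁ : ℝ) * f₂)) with hR
  have hR1 : 1 ≤ R := by
    rw [hR, Real.one_le_sqrt]
    exact one_le_mul_of_one_le_of_one_le (by linarith) (one_le_mul_of_one_le_of_one_le hf1 hf2)
  refine ⟨B * R ^ B + 2 * R, ?_, ?_, ?_⟩
  · have : 0 ≤ B * R ^ B := by positivity
    linarith
  · exact cA_norm ψ₁ ψ₂ α
  · intro q χ hq hc hχ
    obtain ⟨g1, g2⟩ := hg q χ (by omega) (hM q hc) hχ
    have hq1 : (1 : ℝ) ≤ q := by exact_mod_cast (show 1 ≤ q by omega)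
    have k1 : (1 : ℝ) ≤ (q : ℝ) * f₁ := one_le_mul_of_one_le_of_one_le hq1 hf1
    have k2 : (1 : ℝ) ≤ (1 + α) * ((q : ℝ) * f₂) :=
      one_le_mul_of_one_le_of_one_le (by linarith) (one_le_mul_of_one_le_of_one_le hq1 hf2)
    have h := goodD_mul hA k1 k2 g1 g2
    have e1 : Real.sqrt ((q : ℝ) * f₁ * ((1 + α) * ((q : ℝ) * f₂))) = R * q := by
      rw [show (q : ℝ) * f₁ * ((1 + α) * ((q : ℝ) * f₂)) = ((1 + α) * ((f₁ : ℝ) * f₂)) * (q : ℝ) ^ 2 by ring,
        Real.sqrt_mul (by positivity), Real.sqrt_sq (by positivity)]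
    rw [e1] at h
    have h2 := goodD_rescale hB1 hq1 hR1 h
    have e3 : (fun n : ℕ => χ (n : ZMod q) * ψ₁ (n : ZMod f₁) * (ArithmeticFunction.vonMangoldt n : ℂ) +
        χ (n : ZMod q) * ψ₂ (n : ZMod f₂) * (ArithmeticFunction.vonMangoldt n : ℂ) * ni α n) =
        (fun n : ℕ => χ (n : ZMod q) * cA ψ₁ ψ₂ α n * (ArithmeticFunction.vonMangoldt n : ℂ)) := by
      funext n
      unfold cA
      ring
    rw [e3] at h2
    exact h2

end two

end Pool.Agent.T2H25.ZR
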